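import Pool.Agent.Helper75.EC.Stmts

/-!
Module `BC`: an open part of the determinantal hypersurface lies in the join.
-/

open MvPolynomial

universe w

namespace Pool.Agent.Helper96.EC

open Pool.Agent.Helper75.EC

section lin

variable {K : Type w} [Field K]

/-- the functional on polynomials with the values `a k` on the monomials -/
noncomputable def BC_L {m : ℕ} (a : Fin m → K) : Polynomial K →ₗ[K] K :=
  ∑ k : Fin m, (a k) • Polynomial.lcoeff K k

theorem BC_L_apply {m : ℕ} (a : Fin m → K) (P : Polynomial K) :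
    BC_L a P = ∑ k : Fin m, P.coeff k * a k := by
  simp only [BC_L, LinearMap.sum_apply, LinearMap.smul_apply, Polynomial.lcoeff_apply, smul_eq_mul]
  exact Finset.sum_congr rfl fun k _ => mul_comm _ _

theorem BC_L_pow {m : ℕ} (a : Fin m → K) (k : Fin m) : BC_L a (Polynomial.X ^ (k : ℕ)) = a k := by
  rw [BC_L_apply, Finset.sum_eq_single k]
  · simp
  · intro l _ hl
    rw [Polynomial.coeff_X_pow, if_neg, zero_mul]
    exact fun h => hl (Fin.ext h)
  · intro h
    exact absurd (Finset.mem_univ k) h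

theorem BC_L_sum {m : ℕ} {ι : Type*} (S : Finset ι) (s : ι → K) (P : Polynomial K)
    (hP : P.natDegree < m) :
    BC_L (fun k : Fin m => ∑ j ∈ S, s j ^ (k : ℕ)) P = ∑ j ∈ S, P.eval (s j) := by
  rw [BC_L_apply]
  simp only [Finset.mul_sum]
  rw [Finset.sum_comm]
  refine Finset.sum_congr rfl fun j _ => ?_
  rw [Polynomial.eval_eq_sum_range' hP, Finset.sum_range]

/-- functionals vanishing on the multiples of a polynomial with distinct roots -/
theorem BC_span {m : ℕ} (a : Fin m → K) (S : Finset K)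
    (h : ∀ i : ℕ, i + S.card < m →
      BC_L a ((∏ r ∈ S, (Polynomial.X - Polynomial.C r)) * Polynomial.X ^ i) = 0) :
    ∃ c : K → K, ∀ k : Fin m, a k = ∑ r ∈ S, c r * r ^ (k : ℕ) := by
  classical
  set T : Polynomial K := ∏ r ∈ S, (Polynomial.X - Polynomial.C r) with hT
  have hTm : T.Monic := Polynomial.monic_prod_of_monic _ _ fun r _ => Polynomial.monic_X_sub_C r
  have hTd : T.natDegree = S.card := by
    rw [hT, Polynomial.natDegree_prod_of_monic _ _ fun r _ => Polynomial.monic_X_sub_C r]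
    simp
  refine ⟨fun r => BC_L a (Lagrange.basis S id r), fun k => ?_⟩
  have h1 : Polynomial.X ^ (k : ℕ) = Polynomial.X ^ (k : ℕ) %ₘ T +
      T * (Polynomial.X ^ (k : ℕ) /ₘ T) := (Polynomial.modByMonic_add_div _ T).symm
  have h2 : BC_L a (T * (Polynomial.X ^ (k : ℕ) /ₘ T)) = 0 := by
    set H := Polynomial.X ^ (k : ℕ) /ₘ T with hH
    have hHd : H.natDegree = k - S.card := by
      rw [hH, Polynomial.natDegree_divByMonic _ hTm, hTd, Polynomial.natDegree_X_pow]
    by_cases hk : S.card ≤ k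
    · rw [H.as_sum_range_C_mul_X_pow, Finset.mul_sum, map_sum]
      refine Finset.sum_eq_zero fun i hi => ?_
      have hi' : i ≤ k - S.card := by
        rw [← hHd]
        exact Nat.lt_succ_iff.mp (Finset.mem_range.mp hi)
      have h3 : T * (Polynomial.C (H.coeff i) * Polynomial.X ^ i) =
          H.coeff i • (T * Polynomial.X ^ i) := by
        rw [Polynomial.smul_eq_C_mul]
        ring
      rw [h3, map_smul, h i (by omega), smul_zero]
    · have h4 : H = 0 := by
        rw [hH]
        refine (Polynomial.divByMonic_eq_zero_iff hTm).mpr ?_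
        rw [Polynomial.degree_X_pow, Polynomial.degree_eq_natDegree hTm.ne_zero, hTd]
        exact_mod_cast not_le.mp hk
      rw [h4, mul_zero, map_zero]
  have h3 : Polynomial.X ^ (k : ℕ) %ₘ T = ∑ r ∈ S, Polynomial.C (r ^ (k : ℕ)) *
      Lagrange.basis S id r := by
    have h4 : (Polynomial.X ^ (k : ℕ) %ₘ T).degree < S.card := by
      have := Polynomial.degree_modByMonic_lt (Polynomial.X ^ (k : ℕ) : Polynomial K) hTm
      rwa [Polynomial.degree_eq_natDegree hTm.ne_zero, hTd] at this
    have h5 := Lagrange.eq_interpolate_of_eval_eq (s := S) (v := id) (fun r => r ^ (k : ℕ))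
      (fun _ _ _ _ h => h) h4 (by
        intro r hr
        have h6 : T.eval r = 0 := by
          rw [hT, Polynomial.eval_prod]
          exact Finset.prod_eq_zero hr (by simp)
        rw [Polynomial.modByMonic_eq_sub_mul_div]
        simp [h6])
    rw [h5, Lagrange.interpolate_apply]
  rw [← BC_L_pow a k, h1, map_add, h2, add_zero, h3, map_sum]
  refine Finset.sum_congr rfl fun r _ => ?_
  rw [← Polynomial.smul_eq_C_mul, map_smul, smul_eq_mul, mul_comm]

end lin

section vec

variable {R : Type*} [CommRing R]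

/-- the polynomial with given coefficients -/
noncomputable def BC_pv (α : ℕ) (v : Fin α ⊕ Fin (α + 1) → R) : Polynomial R :=
  ∑ c, Polynomial.C (v c) * Polynomial.X ^ (cix α (α + 1) c)

theorem BC_cix_inj (α : ℕ) : Function.Injective (cix α (α + 1)) := by
  intro c c' h
  rcases c with c | c <;> rcases c' with c' | c' <;> simp only [cix, Sum.elim_inl, Sum.elim_inr] at h
  · rw [Fin.ext h]
  · have := c.2
    omega
  · have := c'.2
    omega
  · rw [Fin.ext (by omega : (c : ℕ) = c')]

theorem BC_cix_le (α : ℕ) (c : Fin α ⊕ Fin (α + 1)) : cix α (α + 1) c ≤ 2 * α := by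
  rcases c with c | c <;> simp only [cix, Sum.elim_inl, Sum.elim_inr]
  · have := c.2
    omega
  · have := c.2
    omega

theorem BC_pv_coeff (α : ℕ) (v : Fin α ⊕ Fin (α + 1) → R) (c : Fin α ⊕ Fin (α + 1)) :
    (BC_pv α v).coeff (cix α (α + 1) c) = v c := by
  rw [BC_pv, Polynomial.finsetSum_coeff, Finset.sum_eq_single c]
  · simp
  · intro c' _ hc'
    rw [Polynomial.coeff_C_mul_X_pow, if_neg]
    exact fun h => hc' (BC_cix_inj α h).symm
  · intro h
    exact absurd (Finset.mem_univ c) h

theorem BC_pv_coeff_top (α : ℕ) (v : Fin α ⊕ Fin (α + 1) → R) :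
    (BC_pv α v).coeff (2 * α) = v (Sum.inr (Fin.last α)) := by
  rw [← BC_pv_coeff α v]
  congr 1
  simp only [cix, Sum.elim_inr, Fin.val_last]
  omega

theorem BC_pv_natDegree (α : ℕ) (v : Fin α ⊕ Fin (α + 1) → R) :
    (BC_pv α v).natDegree ≤ 2 * α := by
  refine Polynomial.natDegree_sum_le_of_forall_le _ _ fun c _ => ?_
  exact (Polynomial.natDegree_C_mul_X_pow_le _ _).trans (BC_cix_le α c)

theorem BC_pv_map {S : Type*} [CommRing S] (φ : R →+* S) (α : ℕ)
    (v : Fin α ⊕ Fin (α + 1) → R) :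
    (BC_pv α v).map φ = BC_pv α (fun c => φ (v c)) := by
  simp [BC_pv, Polynomial.map_sum]

end vec

section mat

variable {K : Type w} [Field K]

/-- the value of the matrix at a point -/
noncomputable def BC_M {m m' : ℕ} (α : ℕ) (P : Polynomial K) (a : Fin m → K) (b : Fin m' → K) :
    Matrix (Fin α ⊕ Fin (α + 1)) (Fin α ⊕ Fin (α + 1)) K := fun r c =>
  Sum.elim (fun i : Fin α => BC_L a (P * Polynomial.X ^ ((i : ℕ) + cix α (α + 1) c)))
    (fun i : Fin (α + 1) => BC_L b (P * Polynomial.X ^ ((i : ℕ) + cix α (α + 1) c))) r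

theorem BC_L_pv {m : ℕ} (α : ℕ) (P : Polynomial K) (a : Fin m → K) (i : ℕ)
    (v : Fin α ⊕ Fin (α + 1) → K) :
    ∑ c, BC_L a (P * Polynomial.X ^ (i + cix α (α + 1) c)) * v c =
      BC_L a (P * Polynomial.X ^ i * BC_pv α v) := by
  rw [BC_pv, Finset.mul_sum, map_sum]
  refine Finset.sum_congr rfl fun c _ => ?_
  have h : P * Polynomial.X ^ i * (Polynomial.C (v c) * Polynomial.X ^ (cix α (α + 1) c)) =
      v c • (P * Polynomial.X ^ (i + cix α (α + 1) c)) := by
    rw [Polynomial.smul_eq_C_mul, pow_add]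
    ring
  rw [h, map_smul, smul_eq_mul, mul_comm]

theorem BC_M_inl {m m' : ℕ} (α : ℕ) (P : Polynomial K) (a : Fin m → K) (b : Fin m' → K)
    (v : Fin α ⊕ Fin (α + 1) → K) (i : Fin α) :
    (BC_M α P a b).mulVec v (Sum.inl i) = BC_L a (P * Polynomial.X ^ (i : ℕ) * BC_pv α v) :=
  BC_L_pv α P a i v

theorem BC_M_inr {m m' : ℕ} (α : ℕ) (P : Polynomial K) (a : Fin m → K) (b : Fin m' → K)
    (v : Fin α ⊕ Fin (α + 1) → K) (i : Fin (α + 1)) :
    (BC_M α P a b).mulVec v (Sum.inr i) = BC_L b (P * Polynomial.X ^ (i : ℕ) * BC_pv α v) :=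
  BC_L_pv α P b i v

theorem BC_eval_sec {n : ℕ} (MA : Matrix (Fin (n + 1)) (Fin (n + 1)) K)
    (MB : Matrix (Fin (n + 2)) (Fin (n + 2)) K) (P : Polynomial K) (α : ℕ)
    (p : Fin (n + 1) ⊕ Fin (n + 2) → K) :
    (secM MA MB P 1 α (α + 1)).map (eval p) =
      BC_M α P (MA.mulVec fun j => p (Sum.inl j)) (MB.mulVec fun j => p (Sum.inr j)) := by
  ext r c
  rcases r with r | r
  · simp only [Matrix.map_apply, secM, Sum.elim_inl, BC_M, BC_L_apply, linY, map_sum, map_mul,
      eval_C, eval_X, Matrix.mulVec, dotProduct]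
  · simp only [Matrix.map_apply, secM, Sum.elim_inr, BC_M, BC_L_apply, linZ, map_sum, map_mul,
      eval_C, eval_X, Matrix.mulVec, dotProduct, mul_one]

/-- vanishing at the nodes -/
theorem BC_vdm {m : ℕ} {α : ℕ} (P : Polynomial K) (s : Fin α → K)
    (hs : Function.Injective s) (hP : ∀ j, P.eval (s j) ≠ 0) (V : Polynomial K)
    (hdeg : P.natDegree + α + V.natDegree ≤ m)
    (h : ∀ i : Fin α, BC_L (fun k : Fin m => ∑ j : Fin α, s j ^ (k : ℕ))
      (P * Polynomial.X ^ (i : ℕ) * V) = 0) (j : Fin α) : V.eval (s j) = 0 := by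
  have h1 : (fun j => P.eval (s j) * V.eval (s j)) = 0 := by
    refine Matrix.eq_zero_of_forall_pow_sum_mul_pow_eq_zero hs fun i => ?_
    have h2 := h i
    have hd : (P * Polynomial.X ^ (i : ℕ) * V).natDegree < m := by
      have h3 := Polynomial.natDegree_mul_le (p := P * Polynomial.X ^ (i : ℕ)) (q := V)
      have h4 := Polynomial.natDegree_mul_le (p := P) (q := Polynomial.X ^ (i : ℕ))
      have h5 : (Polynomial.X ^ (i : ℕ) : Polynomial K).natDegree ≤ i :=
        Polynomial.natDegree_X_pow_le _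
      have h6 := i.2
      omega
    rw [BC_L_sum Finset.univ s _ hd] at h2
    rw [← h2]
    refine Finset.sum_congr rfl fun j _ => ?_
    rw [Polynomial.eval_mul, Polynomial.eval_mul, Polynomial.eval_pow, Polynomial.eval_X]
    ring
  have h2 := congrFun h1 j
  exact (mul_eq_zero.mp h2).resolve_left (hP j)

/-- simple roots and the resultant -/
theorem BC_res [IsAlgClosed K] (q : Polynomial K) (d : ℕ) (hd : 1 ≤ d) (hq : q.natDegree = d) :
    Polynomial.resultant q (Polynomial.derivative q) d (d - 1) ≠ 0 ↔ q.roots.Nodup := by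
  classical
  have hq0 : q ≠ 0 := by
    rintro rfl
    rw [Polynomial.natDegree_zero] at hq
    omega
  have h1 := Polynomial.resultant_eq_prod_eval q (Polynomial.derivative q) (d - 1)
    (by rw [← hq]; exact Polynomial.natDegree_derivative_le q) (IsAlgClosed.splits q)
  rw [hq] at h1
  rw [h1]
  have h2 : (q.leadingCoeff ^ (d - 1) *
      (Multiset.map (fun x => Polynomial.eval x (Polynomial.derivative q)) q.roots).prod ≠ 0) ↔
      ∀ x ∈ q.roots, Polynomial.eval x (Polynomial.derivative q) ≠ 0 := by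
    rw [mul_ne_zero_iff]
    constructor
    · rintro ⟨-, h⟩ x hx h0
      exact h (Multiset.prod_eq_zero (Multiset.mem_map.mpr ⟨x, hx, h0⟩))
    · intro h
      refine ⟨pow_ne_zero _ (Polynomial.leadingCoeff_ne_zero.mpr hq0), ?_⟩
      intro h0
      obtain ⟨x, hx, hx0⟩ := Multiset.mem_map.mp (Multiset.prod_eq_zero_iff.mp h0)
      exact h x hx hx0
  refine h2.trans ?_
  rw [Multiset.nodup_iff_count_le_one]
  constructor
  · intro h x
    by_contra hcon
    rw [not_le, Polynomial.count_roots, Polynomial.one_lt_rootMultiplicity_iff_isRoot hq0] at hcon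
    exact h x ((Polynomial.mem_roots hq0).mpr hcon.1) hcon.2
  · intro h x hx h0
    have h3 : 1 < q.rootMultiplicity x :=
      (Polynomial.one_lt_rootMultiplicity_iff_isRoot hq0).mpr
        ⟨(Polynomial.mem_roots hq0).mp hx, h0⟩
    rw [← Polynomial.count_roots] at h3
    exact absurd (h x) (not_le.mpr h3)

end mat

section main

variable {K : Type w} [Field K] {n : ℕ}

/-- the cofactors -/
noncomputable def BC_Q (MA : Matrix (Fin (n + 1)) (Fin (n + 1)) K)
    (MB : Matrix (Fin (n + 2)) (Fin (n + 2)) K) (P : Polynomial K) (α : ℕ) :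
    Polynomial (MvPolynomial (Fin (n + 1) ⊕ Fin (n + 2)) K) :=
  BC_pv α fun c => (secM MA MB P 1 α (α + 1)).adjugate c (Sum.inr (Fin.last α))

/-- the polynomial which does not vanish on the good part -/
noncomputable def BC_D (MA : Matrix (Fin (n + 1)) (Fin (n + 1)) K)
    (MB : Matrix (Fin (n + 2)) (Fin (n + 2)) K) (t : Fin (n + 3) → K)
    (I : Finset (Fin (n + 3))) (α : ℕ) : MvPolynomial (Fin (n + 1) ⊕ Fin (n + 2)) K :=
  (BC_Q MA MB (rootP t I) α).coeff (2 * α) *
    Polynomial.resultant (BC_Q MA MB (rootP t I) α)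
      (Polynomial.derivative (BC_Q MA MB (rootP t I) α)) (2 * α) (2 * α - 1) *
    ∏ i ∈ I, (BC_Q MA MB (rootP t I) α).eval (C (t i))

theorem BC_D_eval (MA : Matrix (Fin (n + 1)) (Fin (n + 1)) K)
    (MB : Matrix (Fin (n + 2)) (Fin (n + 2)) K) (t : Fin (n + 3) → K)
    (I : Finset (Fin (n + 3))) (α : ℕ) (p : Fin (n + 1) ⊕ Fin (n + 2) → K) :
    eval p (BC_D MA MB t I α) =
      ((BC_Q MA MB (rootP t I) α).map (eval p)).coeff (2 * α) *
    Polynomial.resultant ((BC_Q MA MB (rootP t I) α).map (eval p))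
      (Polynomial.derivative ((BC_Q MA MB (rootP t I) α).map (eval p))) (2 * α) (2 * α - 1) *
    ∏ i ∈ I, ((BC_Q MA MB (rootP t I) α).map (eval p)).eval (t i) := by
  rw [BC_D, map_mul, map_mul, map_prod, Polynomial.coeff_map, Polynomial.derivative_map,
    Polynomial.resultant_map_map]
  congr 1
  refine Finset.prod_congr rfl fun i _ => ?_
  have h := Polynomial.eval_map_apply (p := BC_Q MA MB (rootP t I) α) (eval p) (C (t i))
  rw [eval_C] at h
  exact h.symm

/-- the value of the cofactors at a point -/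
theorem BC_Q_map (MA : Matrix (Fin (n + 1)) (Fin (n + 1)) K)
    (MB : Matrix (Fin (n + 2)) (Fin (n + 2)) K) (P : Polynomial K) (α : ℕ)
    (p : Fin (n + 1) ⊕ Fin (n + 2) → K) :
    (BC_Q MA MB P α).map (eval p) = BC_pv α fun c =>
      (BC_M α P (MA.mulVec fun j => p (Sum.inl j)) (MB.mulVec fun j => p (Sum.inr j))).adjugate c
        (Sum.inr (Fin.last α)) := by
  rw [BC_Q, BC_pv_map]
  congr 1
  funext c
  rw [← BC_eval_sec]
  have h := RingHom.map_adjugate (eval p) (secM MA MB P 1 α (α + 1))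
  have h2 := congrFun (congrFun h c) (Sum.inr (Fin.last α))
  rw [RingHom.mapMatrix_apply, Matrix.map_apply] at h2
  exact h2

/-- membership in the spans -/
theorem BC_mem [DecidableEq K] {m : ℕ} {N : ℕ} (B : Matrix (Fin m) (Fin m) K) (hB : B.det ≠ 0)
    (u : Fin N → Fin m → K) (t : Fin N → K)
    (hu : ∀ i, ∃ c : K, c ≠ 0 ∧ B.mulVec (u i) = fun j : Fin m => c * t i ^ (j : ℕ))
    (I : Finset (Fin N)) (S : Finset K) (y : Fin m → K) (c : K → K)
    (hy : ∀ k : Fin m, B.mulVec y k = ∑ r ∈ (I.image t) ∪ S, c r * r ^ (k : ℕ)) (W : Set (Fin m → K))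
    (hW : ∀ r ∈ S, B⁻¹.mulVec (fun k : Fin m => r ^ (k : ℕ)) ∈ W) :
    y ∈ Submodule.span K (u '' I ∪ W) := by
  have hdet : IsUnit B.det := isUnit_iff_ne_zero.mpr hB
  have hinv : ∀ z, B⁻¹.mulVec (B.mulVec z) = z := by
    intro z
    rw [Matrix.mulVec_mulVec, Matrix.nonsing_inv_mul B hdet, Matrix.one_mulVec]
  have h1 : y = ∑ r ∈ (I.image t) ∪ S, c r • B⁻¹.mulVec (fun k : Fin m => r ^ (k : ℕ)) := by
    have h2 : B.mulVec y = ∑ r ∈ (I.image t) ∪ S, c r • (fun k : Fin m => r ^ (k : ℕ)) := by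
      funext k
      rw [hy k, Finset.sum_apply]
      rfl
    rw [← hinv y, h2]
    rw [Matrix.mulVec_sum]
    exact Finset.sum_congr rfl fun r _ => Matrix.mulVec_smul _ _ _
  rw [h1]
  refine Submodule.sum_mem _ fun r hr => Submodule.smul_mem _ _ ?_
  rcases Finset.mem_union.mp hr with hr | hr
  · obtain ⟨i, hi, rfl⟩ := Finset.mem_image.mp hr
    obtain ⟨c', hc', he⟩ := hu i
    have h2 : B⁻¹.mulVec (fun k : Fin m => t i ^ (k : ℕ)) = c'⁻¹ • u i := by
      have h3 : (fun k : Fin m => t i ^ (k : ℕ)) = c'⁻¹ • B.mulVec (u i) := by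
        rw [he]
        funext k
        simp [hc']
      rw [h3, Matrix.mulVec_smul, hinv]
    rw [h2]
    exact Submodule.smul_mem _ _ (Submodule.subset_span (Or.inl ⟨i, hi, rfl⟩))
  · exact Submodule.subset_span (Or.inr (hW r hr))

/-- one factor -/
theorem BC_factor [DecidableEq K] {m : ℕ} {N : ℕ} (B : Matrix (Fin m) (Fin m) K) (hB : B.det ≠ 0)
    (u : Fin N → Fin m → K) (t : Fin N → K) (ht : Function.Injective t)
    (hu : ∀ i, ∃ c : K, c ≠ 0 ∧ B.mulVec (u i) = fun j : Fin m => c * t i ^ (j : ℕ))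
    (I : Finset (Fin N)) (S : Finset K) (hS : Disjoint (I.image t) S) (y : Fin m → K)
    (q : Polynomial K) (l : K) (hq : Polynomial.C l * ∏ r ∈ S, (Polynomial.X - Polynomial.C r) = q)
    (hl : l ≠ 0)
    (h : ∀ i : ℕ, i + I.card + S.card < m → BC_L (B.mulVec y)
      ((∏ i ∈ I, (Polynomial.X - Polynomial.C (t i))) * Polynomial.X ^ i * q) = 0)
    (W : Set (Fin m → K))
    (hW : ∀ r ∈ S, B⁻¹.mulVec (fun k : Fin m => r ^ (k : ℕ)) ∈ W) :
    y ∈ Submodule.span K (u '' I ∪ W) := by
  obtain ⟨c, hc⟩ := BC_span (B.mulVec y) ((I.image t) ∪ S) (by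
    intro i hi
    rw [Finset.card_union_of_disjoint hS, Finset.card_image_of_injective _ ht] at hi
    have h1 := h i (by omega)
    rw [Finset.prod_union hS, Finset.prod_image (fun _ _ _ _ h => ht h)]
    have h2 : (∏ i ∈ I, (Polynomial.X - Polynomial.C (t i))) *
        (∏ r ∈ S, (Polynomial.X - Polynomial.C r)) * Polynomial.X ^ i =
        l⁻¹ • ((∏ i ∈ I, (Polynomial.X - Polynomial.C (t i))) * Polynomial.X ^ i * q) := by
      rw [← hq, Polynomial.smul_eq_C_mul]
      have h3 : Polynomial.C l⁻¹ * Polynomial.C l = (1 : Polynomial K) := by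
        rw [← Polynomial.C_mul, inv_mul_cancel₀ hl, Polynomial.C_1]
      calc _ = (Polynomial.C l⁻¹ * Polynomial.C l) *
          ((∏ i ∈ I, (Polynomial.X - Polynomial.C (t i))) *
          (∏ r ∈ S, (Polynomial.X - Polynomial.C r)) * Polynomial.X ^ i) := by rw [h3, one_mul]
        _ = _ := by ring
    rw [h2, map_smul, h1, smul_zero])
  exact BC_mem B hB u t hu I S y c hc W hW

/-- the direct part -/
theorem BC_dir [IsAlgClosed K] (u : Fin (n + 3) → Fin (n + 1) → K)
    (v : Fin (n + 3) → Fin (n + 2) → K)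
    (t : Fin (n + 3) → K) (MA : Matrix (Fin (n + 1)) (Fin (n + 1)) K)
    (MB : Matrix (Fin (n + 2)) (Fin (n + 2)) K) (hF : Frame u v t MA MB)
    (α : ℕ) (I : Finset (Fin (n + 3))) (hI : 3 * α + I.card = n + 1) (hα : 1 ≤ α)
    (p : Fin (n + 1) ⊕ Fin (n + 2) → K)
    (hdet : eval p (secM MA MB (rootP t I) 1 α (α + 1)).det = 0)
    (hD : eval p (BC_D MA MB t I α) ≠ 0) : p ∈ joinSet u v MA⁻¹ MB⁻¹ I (2 * α) := by
  classical
  set a := MA.mulVec fun j => p (Sum.inl j) with ha
  set b := MB.mulVec fun j => p (Sum.inr j) with hb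
  set P := rootP t I with hP
  set M := BC_M α P a b with hM
  set c : Fin α ⊕ Fin (α + 1) → K := fun r => M.adjugate r (Sum.inr (Fin.last α)) with hc
  have hq : (BC_Q MA MB P α).map (eval p) = BC_pv α c := BC_Q_map MA MB P α p
  rw [BC_D_eval, hq] at hD
  set q := BC_pv α c with hqd
  have h1 := left_ne_zero_of_mul (left_ne_zero_of_mul hD)
  have h2 := right_ne_zero_of_mul (left_ne_zero_of_mul hD)
  have h3 := right_ne_zero_of_mul hD
  have hdeg : q.natDegree = 2 * α :=
    le_antisymm (BC_pv_natDegree α c) (Polynomial.le_natDegree_of_ne_zero h1)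
  have hq0 : q ≠ 0 := by
    intro h0
    rw [h0] at h1
    simp at h1
  have hnd : q.roots.Nodup := (BC_res q (2 * α) (by omega) hdeg).mp h2
  have hcard : Multiset.card q.roots = 2 * α := by
    rw [← hdeg]
    exact ((IsAlgClosed.splits q).natDegree_eq_card_roots).symm
  let S : Finset K := ⟨q.roots, hnd⟩
  have hScard : S.card = 2 * α := hcard
  have hSprod : Polynomial.C q.leadingCoeff * ∏ r ∈ S, (Polynomial.X - Polynomial.C r) = q :=
    Polynomial.C_leadingCoeff_mul_prod_multiset_X_sub_C (hcard.trans hdeg.symm)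
  have hl : q.leadingCoeff ≠ 0 := Polynomial.leadingCoeff_ne_zero.mpr hq0
  have hdis : Disjoint (I.image t) S := by
    rw [Finset.disjoint_left]
    intro r hr hrS
    obtain ⟨i, hi, rfl⟩ := Finset.mem_image.mp hr
    have h4 : q.IsRoot (t i) := (Polynomial.mem_roots hq0).mp hrS
    exact (Finset.prod_ne_zero_iff.mp h3 i hi) h4
  -- the kernel
  have hker : M.mulVec c = 0 := by
    have h4 := Matrix.mul_adjugate M
    have h5 : M.det = 0 := by
      rw [hM, ha, hb, ← BC_eval_sec, ← hdet]
      exact (RingHom.map_det (eval p) _).symm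
    rw [h5, zero_smul] at h4
    funext r
    exact congrFun (congrFun h4 r) (Sum.inr (Fin.last α))
  let e := S.equivFinOfCardEq hScard
  let s : Fin (2 * α) → K := fun j => (e.symm j : K)
  have hsmem : ∀ r ∈ S, ∃ j, s j = r := fun r hr => ⟨e ⟨r, hr⟩, by simp [s]⟩
  refine ⟨fun _ => 1, s, fun j h => one_ne_zero h.1, fun j l hjl h => ?_, ?_, ?_⟩
  · have h5 : s l = s j := by simpa using h
    have h6 : e.symm l = e.symm j := Subtype.ext h5
    exact hjl (e.symm.injective h6).symm
  · refine BC_factor MA hF.dA u t hF.inj hF.hA I S hdis _ q q.leadingCoeff hSprod hl ?_ _ ?_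
    · intro i hi
      rw [hScard] at hi
      have h5 := congrFun hker (Sum.inl ⟨i, by omega⟩)
      rw [hM, BC_M_inl] at h5
      exact h5
    · intro r hr
      obtain ⟨j, rfl⟩ := hsmem r hr
      refine ⟨j, ?_⟩
      show MA⁻¹.mulVec (ver n 1 (s j)) = _
      congr 1
      funext k
      simp [ver]
  · refine BC_factor MB hF.dB v t hF.inj hF.hB I S hdis _ q q.leadingCoeff hSprod hl ?_ _ ?_
    · intro i hi
      rw [hScard] at hi
      have h5 := congrFun hker (Sum.inr ⟨i, by omega⟩)
      rw [hM, BC_M_inr] at h5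
      exact h5
    · intro r hr
      obtain ⟨j, rfl⟩ := hsmem r hr
      refine ⟨j, ?_⟩
      show MB⁻¹.mulVec (ver (n + 1) 1 (s j)) = _
      congr 1
      funext k
      simp [ver]

theorem BC_P_natDegree (t : Fin (n + 3) → K) (I : Finset (Fin (n + 3))) :
    (rootP t I).natDegree = I.card := by
  rw [rootP, Polynomial.natDegree_prod_of_monic _ _ fun i _ => Polynomial.monic_X_sub_C _]
  simp

/-- a good point of the join -/
theorem BC_pt [IsAlgClosed K] (u : Fin (n + 3) → Fin (n + 1) → K)
    (v : Fin (n + 3) → Fin (n + 2) → K)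
    (t : Fin (n + 3) → K) (MA : Matrix (Fin (n + 1)) (Fin (n + 1)) K)
    (MB : Matrix (Fin (n + 2)) (Fin (n + 2)) K) (hF : Frame u v t MA MB)
    (α : ℕ) (I : Finset (Fin (n + 3))) (hI : 3 * α + I.card = n + 1) (hα : 1 ≤ α) :
    ∃ p ∈ joinSet u v MA⁻¹ MB⁻¹ I (2 * α), eval p (BC_D MA MB t I α) ≠ 0 := by
  classical
  -- the nodes
  obtain ⟨s, hsinj, hst⟩ : ∃ s : Fin α ⊕ Fin α → K, Function.Injective s ∧
      ∀ j i, s j ≠ t i := by
    have hinf : (Set.range t)ᶜ.Infinite := (Set.finite_range t).infinite_compl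
    have := hinf.to_subtype
    obtain ⟨f⟩ : Nonempty ((Fin α ⊕ Fin α) ↪ ((Set.range t)ᶜ : Set K)) :=
      ⟨(Fintype.equivFin (Fin α ⊕ Fin α)).toEmbedding.trans
        ((Fin.valEmbedding).trans (Infinite.natEmbedding _))⟩
    refine ⟨fun j => f j, fun j l h => f.injective (Subtype.ext h), fun j i h => ?_⟩
    exact (f j).2 ⟨i, h.symm⟩
  have hdA : IsUnit MA.det := isUnit_iff_ne_zero.mpr hF.dA
  have hdB : IsUnit MB.det := isUnit_iff_ne_zero.mpr hF.dB
  let a : Fin (n + 1) → K := fun k => ∑ j : Fin α, s (Sum.inl j) ^ (k : ℕ)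
  let b : Fin (n + 2) → K := fun k => ∑ j : Fin α, s (Sum.inr j) ^ (k : ℕ)
  let p : Fin (n + 1) ⊕ Fin (n + 2) → K := Sum.elim (MA⁻¹.mulVec a) (MB⁻¹.mulVec b)
  have ha : (MA.mulVec fun j => p (Sum.inl j)) = a := by
    show MA.mulVec (MA⁻¹.mulVec a) = a
    rw [Matrix.mulVec_mulVec, Matrix.mul_nonsing_inv MA hdA, Matrix.one_mulVec]
  have hb : (MB.mulVec fun j => p (Sum.inr j)) = b := by
    show MB.mulVec (MB⁻¹.mulVec b) = b
    rw [Matrix.mulVec_mulVec, Matrix.mul_nonsing_inv MB hdB, Matrix.one_mulVec]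
  refine ⟨p, ?_, ?_⟩
  · -- the point is in the join
    let e : Fin α ⊕ Fin α ≃ Fin (2 * α) := Fintype.equivFinOfCardEq (by simp; omega)
    refine ⟨fun _ => 1, fun j => s (e.symm j), fun j h => one_ne_zero h.1, fun j l hjl h => ?_,
      ?_, ?_⟩
    · have h5 : s (e.symm l) = s (e.symm j) := by simpa using h
      exact hjl (e.symm.injective (hsinj h5)).symm
    · have h1 : (fun j => p (Sum.inl j)) = ∑ j : Fin α,
          MA⁻¹.mulVec (ver n 1 (s (Sum.inl j))) := by
        rw [← Matrix.mulVec_sum]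
        show MA⁻¹.mulVec a = _
        congr 1
        funext k
        simp [a, ver, Finset.sum_apply]
      rw [h1]
      refine Submodule.sum_mem _ fun j _ => Submodule.subset_span (Or.inr ⟨e (Sum.inl j), ?_⟩)
      simp
    · have h1 : (fun j => p (Sum.inr j)) = ∑ j : Fin α,
          MB⁻¹.mulVec (ver (n + 1) 1 (s (Sum.inr j))) := by
        rw [← Matrix.mulVec_sum]
        show MB⁻¹.mulVec b = _
        congr 1
        funext k
        simp [b, ver, Finset.sum_apply]
      rw [h1]
      refine Submodule.sum_mem _ fun j _ => Submodule.subset_span (Or.inr ⟨e (Sum.inr j), ?_⟩)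
      simp
  · set P := rootP t I with hP
    have hPd : P.natDegree = I.card := BC_P_natDegree t I
    have hPs : ∀ j, P.eval (s j) ≠ 0 := by
      intro j
      rw [hP, rootP, Polynomial.eval_prod]
      refine Finset.prod_ne_zero_iff.mpr fun i _ => ?_
      simpa [sub_eq_zero] using hst j i
    set M := BC_M α P a b with hM
    -- vectors killed by the first rows vanish at the nodes
    have hvan : ∀ w : Fin α ⊕ Fin (α + 1) → K, (∀ r, r ≠ Sum.inr (Fin.last α) →
        M.mulVec w r = 0) → ∀ j, (BC_pv α w).eval (s j) = 0 := by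
      intro w hw j
      have hwd := BC_pv_natDegree α w
      rcases j with j | j
      · refine BC_vdm (m := n + 1) P (fun j => s (Sum.inl j))
          (fun x y h => Sum.inl_injective (hsinj h)) (fun j => hPs _) (BC_pv α w)
          (by omega) (fun i => ?_) j
        have h5 := hw (Sum.inl i) (by simp)
        rw [hM, BC_M_inl] at h5
        exact h5
      · refine BC_vdm (m := n + 2) P (fun j => s (Sum.inr j))
          (fun x y h => Sum.inr_injective (hsinj h)) (fun j => hPs _) (BC_pv α w)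
          (by omega) (fun i => ?_) j
        have h5 := hw (Sum.inr i.castSucc) (by
          intro h
          have h6 := Sum.inr_injective h
          exact (Fin.castSucc_lt_last i).ne h6)
        rw [hM, BC_M_inr] at h5
        exact h5
    set c : Fin α ⊕ Fin (α + 1) → K := fun r => M.adjugate r (Sum.inr (Fin.last α)) with hc
    have hq : (BC_Q MA MB P α).map (eval p) = BC_pv α c := by
      have h5 := BC_Q_map MA MB P α p
      rw [ha, hb] at h5
      exact h5
    rw [BC_D_eval, hq]
    set q := BC_pv α c with hqd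
    -- the leading coefficient
    have hlead : q.coeff (2 * α) ≠ 0 := by
      rw [hqd, BC_pv_coeff_top]
      show M.adjugate _ _ ≠ 0
      rw [Matrix.adjugate_apply]
      intro h0
      obtain ⟨w, hw0, hw⟩ := Matrix.exists_mulVec_eq_zero_iff.mpr h0
      have hwl : w (Sum.inr (Fin.last α)) = 0 := by
        have h5 := congrFun hw (Sum.inr (Fin.last α))
        simpa [Matrix.mulVec, Matrix.updateRow_self] using h5
      have h6 := hvan w (by
        intro r hr
        have h5 := congrFun hw r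
        simpa [Matrix.mulVec, Matrix.updateRow_ne hr] using h5)
      have h7 : (BC_pv α w).natDegree < 2 * α := by
        refine lt_of_le_of_ne (BC_pv_natDegree α w) fun h8 => ?_
        have h9 : (BC_pv α w).coeff (2 * α) = 0 := by rw [BC_pv_coeff_top, hwl]
        rw [← h8, Polynomial.coeff_natDegree, Polynomial.leadingCoeff_eq_zero] at h9
        rw [h9, Polynomial.natDegree_zero] at h8
        omega
      have h8 : BC_pv α w = 0 :=
        Polynomial.eq_zero_of_natDegree_lt_card_of_eval_eq_zero _ hsinj h6 (by simp; omega)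
      apply hw0
      funext x
      rw [← BC_pv_coeff α w x, h8]
      simp
    have hq0 : q ≠ 0 := by
      intro h0
      rw [h0] at hlead
      simp at hlead
    have hdeg : q.natDegree = 2 * α :=
      le_antisymm (BC_pv_natDegree α c) (Polynomial.le_natDegree_of_ne_zero hlead)
    have hker : ∀ r, r ≠ Sum.inr (Fin.last α) → M.mulVec c r = 0 := by
      intro r hr
      have h4 := congrFun (congrFun (Matrix.mul_adjugate M) r) (Sum.inr (Fin.last α))
      have h5 : (M.det • (1 : Matrix (Fin α ⊕ Fin (α + 1)) (Fin α ⊕ Fin (α + 1)) K)) r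
          (Sum.inr (Fin.last α)) = 0 := by
        rw [Matrix.smul_apply, Matrix.one_apply_ne hr, smul_zero]
      rw [h5] at h4
      exact h4
    have hroot : ∀ j, q.eval (s j) = 0 := hvan c hker
    refine mul_ne_zero (mul_ne_zero hlead ?_) ?_
    · rw [BC_res q (2 * α) (by omega) hdeg, ← Multiset.toFinset_card_eq_card_iff_nodup]
      refine le_antisymm (Multiset.toFinset_card_le _) ?_
      have h5 : Multiset.card q.roots ≤ 2 * α := by
        rw [← hdeg]
        exact Polynomial.card_roots' q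
      refine h5.trans ?_
      have h6 : (Finset.univ.image s).card = 2 * α := by
        rw [Finset.card_image_of_injective _ hsinj]
        simp
        omega
      rw [← h6]
      refine Finset.card_le_card fun x hx => ?_
      obtain ⟨j, -, rfl⟩ := Finset.mem_image.mp hx
      exact Multiset.mem_toFinset.mpr ((Polynomial.mem_roots hq0).mpr (hroot j))
    · refine Finset.prod_ne_zero_iff.mpr fun i _ h0 => hq0 ?_
      refine Polynomial.eq_zero_of_natDegree_lt_card_of_eval_eq_zero q
        (f := fun j : Option (Fin α ⊕ Fin α) => j.elim (t i) s) ?_ ?_ ?_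
      · intro x y hxy
        rcases x with _ | x <;> rcases y with _ | y
        · rfl
        · exact absurd hxy.symm (hst y i)
        · exact absurd hxy (hst x i)
        · exact congrArg some (hsinj hxy)
      · intro x
        rcases x with _ | x
        · exact h0
        · exact hroot x
      · rw [hdeg]
        simp
        omega

end main

/-- module `BC` -/
theorem st_BC : ST_BC.{w} := by
  intro K _ _ n u v t MA MB hF α I hI hα
  exact ⟨BC_D MA MB t I α, BC_pt u v t MA MB hF α I hI hα,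
    fun p h1 h2 => BC_dir u v t MA MB hF α I hI hα p h1 h2⟩

end Pool.Agent.Helper96.EC
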